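import Pool.Agent.helper17.PR.SpecN
import Pool.Agent.helper17.PR.RKX

/-!
# Module pr:N_FIN (MP_a2a22c_al): extension of scalars and assembly of `NIL_stmt`
-/

set_option autoImplicit false

namespace Pool.Agent.PR

open Module Matrix

/-- the representation over an extension field -/
noncomputable def N_FIN_ext {n : ℕ} {F : Type} (K : Type) [Field F] [Field K] [Algebra F K] {P : Type}
    [Group P] (ρ : P →* Matrix (Fin n) (Fin n) F) : P →* Module.End K (Fin n → K) where
  toFun g := Matrix.toLin' ((ρ g).map (algebraMap F K))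
  map_one' := by
    rw [map_one, Matrix.map_one _ (map_zero _) (map_one _), Matrix.toLin'_one]
    rfl
  map_mul' g h := by
    rw [map_mul, Matrix.map_mul, Matrix.toLin'_mul]
    rfl

theorem N_FIN_inj {n : ℕ} {F K : Type} [Field F] [Field K] [Algebra F K] {P : Type}
    [Group P] (ρ : P →* Matrix (Fin n) (Fin n) F) (h : Function.Injective ρ) :
    Function.Injective (N_FIN_ext K ρ) := by
  intro g g' hg
  have h1 : Matrix.toLin' ((ρ g).map (algebraMap F K)) =
      Matrix.toLin' ((ρ g').map (algebraMap F K)) := hg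
  have h2 := Matrix.toLin'.injective h1
  apply h
  ext i j
  have h3 := congrFun (congrFun h2 i) j
  rw [Matrix.map_apply, Matrix.map_apply] at h3
  exact (algebraMap F K).injective h3

theorem N_FIN_sub {n : ℕ} {F K : Type} [Field F] [Field K] [Algebra F K] {P : Type}
    [Group P] (ρ : P →* Matrix (Fin n) (Fin n) F) (t : P) :
    N_FIN_ext K ρ t - 1 = Matrix.toLin' ((ρ t - 1).map (algebraMap F K)) := by
  rw [Matrix.map_sub _ (map_sub _), Matrix.map_one _ (map_zero _) (map_one _), map_sub,
    Matrix.toLin'_one]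
  rfl

theorem N_FIN_rank {n : ℕ} {F K : Type} [Field F] [Field K] [Algebra F K] {P : Type}
    [Group P] (ρ : P →* Matrix (Fin n) (Fin n) F) (t : P) :
    finrank K (LinearMap.range (N_FIN_ext K ρ t - 1)) = (ρ t - 1).rank := by
  rw [N_FIN_sub, ← rank_map_ext (algebraMap F K) (ρ t - 1)]
  rfl

theorem N_FIN (hBIG : N_BIG_stmt) (hK4 : N_K4_stmt) : N_FIN_stmt := by
  intro n hn F _ _ P _ hP ρ hρ
  obtain ⟨hnil, htf, hcl⟩ := hP
  let K := AlgebraicClosure F
  haveI : CharZero K := charZero_of_injective_algebraMap (algebraMap F K).injective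
  have hdim : finrank K (Fin n → K) = n := Module.finrank_fin_fun K
  have hinj := N_FIN_inj (K := K) ρ hρ
  by_cases h1 : (⊤ : Subgroup P).lowerCentralSeries (n - 2) = ⊥
  · rcases hcl with h2 | ⟨h2, h3⟩
    · exact absurd h1 h2
    · subst h2
      obtain ⟨t, u, h4, h5, h6⟩ := hK4 K (Fin 4 → K) P hdim htf h3 h1 (N_FIN_ext K ρ) hinj
      refine ⟨t, u, h4, ?_, h6⟩
      rw [← N_FIN_rank (K := K), h5]
  · obtain ⟨t, u, h4, h5, h6⟩ := hBIG n hn K (Fin n → K) P hdim hnil htf h1 (N_FIN_ext K ρ) hinj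
    refine ⟨t, u, h4, ?_, h6⟩
    rw [← N_FIN_rank (K := K), h5]

end Pool.Agent.PR
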