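import Pool.Agent.helper5.PR.SpecX

/-!
# Project pr (MP_a2a22c_al), module X-RSJ: `SL(n, ℤ) → SL(n, ℤ/d)` is onto
-/

set_option autoImplicit false

namespace Pool.Agent.PR

open Matrix

theorem X_RSJ_det {n : ℕ} (m : ℕ) (A : Matrix (Fin n) (Fin n) ℤ) (B : SLd n m)
    (h : ∀ i j, ((A i j : ℤ) : ZMod m) = B.1 i j) : (m : ℤ) ∣ A.det - 1 := by
  have h1 : (Int.castRingHom (ZMod m)).mapMatrix A = B.1 := by
    ext i j
    exact h i j
  have h2 : (Int.castRingHom (ZMod m)) A.det = 1 := by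
    rw [RingHom.map_det, h1]
    exact B.2
  have h3 : ((A.det - 1 : ℤ) : ZMod m) = 0 := by
    rw [Int.cast_sub, Int.cast_one, sub_eq_zero]
    exact h2
  exact (ZMod.intCast_zmod_eq_zero_iff_dvd _ _).1 h3

theorem X_RSJ_red {n : ℕ} (m : ℕ) (A : Matrix (Fin n) (Fin n) ℤ) (γ : SLZ n)
    (h : MC m (γ : Matrix (Fin n) (Fin n) ℤ) A) (B : SLd n m)
    (hB : ∀ i j, ((A i j : ℤ) : ZMod m) = B.1 i j) : redZ n m γ = B := by
  ext i j
  have h1 : (((γ : Matrix (Fin n) (Fin n) ℤ) i j - A i j : ℤ) : ZMod m) = 0 :=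
    (ZMod.intCast_zmod_eq_zero_iff_dvd _ _).2 (h i j)
  rw [Int.cast_sub, sub_eq_zero] at h1
  rw [← hB i j, ← h1]
  rfl

theorem X_RSJ (hLSA : LSA_stmt) : X_RSJ_stmt := by
  intro n d hd δ
  have h1 : ∀ i j, ∃ a : ℤ, (a : ZMod d) = δ.1 i j := fun i j => ZMod.intCast_surjective _
  choose A hA using h1
  obtain ⟨γ, hγ⟩ := hLSA n d (by omega) (Matrix.of A) (X_RSJ_det d (Matrix.of A) δ hA)
  exact ⟨γ, X_RSJ_red d (Matrix.of A) γ hγ δ hA⟩

end Pool.Agent.PR
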