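import Pool.Agent.helper48.PR.SpecL

/-!
# Module pr:LKEY (MP_a2a22c_al), project of helper48
-/

set_option autoImplicit false

namespace Pool.Agent.PR

open Matrix

theorem LKEY_dvd (m : ℕ) (x : ℤ)
    (h : ∀ q : Nat.Primes, ((m : ℕ) : ℤ_[(q : ℕ)]) ∣ ((x : ℤ) : ℤ_[(q : ℕ)])) : (m : ℤ) ∣ x := by
  rw [Int.natCast_dvd, Nat.dvd_iff_prime_pow_dvd_dvd]
  intro p k hp hk
  haveI : Fact p.Prime := ⟨hp⟩
  have h1 : ((m : ℕ) : ℤ_[p]) ∣ ((x : ℤ) : ℤ_[p]) := h ⟨p, hp⟩
  have h2 : ((p : ℕ) : ℤ_[p]) ^ k ∣ ((x : ℤ) : ℤ_[p]) := by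
    refine dvd_trans ?_ h1
    have := Nat.cast_dvd_cast (α := ℤ_[p]) hk
    simpa using this
  rw [PadicInt.pow_p_dvd_int_iff] at h2
  have h3 : ((p ^ k : ℕ) : ℤ) ∣ x := by exact_mod_cast h2
  exact Int.natCast_dvd.mp h3

theorem LKEY_dvd_of (m : ℕ) (hm : m ≠ 0) (q : ℕ) [Fact q.Prime] (x : ℤ_[q])
    (h : (q : ℤ_[q]) ^ (m.factorization q) ∣ x) : (m : ℤ_[q]) ∣ x := by
  have h1 : q ^ (m.factorization q) * (m / q ^ (m.factorization q)) = m :=
    Nat.ordProj_mul_ordCompl_eq_self m q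
  have h2 : IsUnit (((m / q ^ (m.factorization q) : ℕ)) : ℤ_[q]) := by
    rw [PadicInt.isUnit_iff, PadicInt.norm_natCast_eq_one_iff]
    exact Nat.coprime_ordCompl Fact.out hm
  have h3 : (m : ℤ_[q]) = (q : ℤ_[q]) ^ (m.factorization q) *
      ((m / q ^ (m.factorization q) : ℕ) : ℤ_[q]) := by
    conv_lhs => rw [← h1]
    push_cast
    ring
  rw [h3]
  exact (IsUnit.mul_right_dvd h2).mpr h

theorem LKEY_approx (m : ℕ) (hm : m ≠ 0) (c : (q : Nat.Primes) → ℤ_[(q : ℕ)]) :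
    ∃ z : ℤ, ∀ q : Nat.Primes, ((m : ℕ) : ℤ_[(q : ℕ)]) ∣ ((z : ℤ) : ℤ_[(q : ℕ)]) - c q := by
  classical
  obtain ⟨S, hS⟩ : ∃ S : Finset Nat.Primes, ∀ q : Nat.Primes, (q : ℕ) ∣ m → q ∈ S := by
    refine ⟨m.primeFactors.attach.image
      (fun p => (⟨p.1, Nat.prime_of_mem_primeFactors p.2⟩ : Nat.Primes)), fun q hq => ?_⟩
    rw [Finset.mem_image]
    exact ⟨⟨(q : ℕ), Nat.mem_primeFactors.mpr ⟨q.2, hq, hm⟩⟩, Finset.mem_attach _ _,
      Subtype.ext rfl⟩
  have hco : Set.Pairwise (↑S : Set Nat.Primes)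
      (Function.onFun Nat.Coprime
        (fun q : Nat.Primes => (q : ℕ) ^ (m.factorization (q : ℕ)))) := by
    intro a _ b _ hab
    apply Nat.Coprime.pow
    rw [Nat.coprime_primes a.2 b.2]
    exact fun h => hab (Subtype.ext h)
  have hne : ∀ q ∈ S,
      (fun q : Nat.Primes => (q : ℕ) ^ (m.factorization (q : ℕ))) q ≠ 0 := by
    intro q _
    exact pow_ne_zero _ q.2.ne_zero
  obtain ⟨k, hk⟩ := Nat.chineseRemainderOfFinset
    (fun q : Nat.Primes => (c q).appr (m.factorization (q : ℕ)))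
    (fun q : Nat.Primes => (q : ℕ) ^ (m.factorization (q : ℕ)))
    S hne hco
  refine ⟨(k : ℤ), fun q => ?_⟩
  apply LKEY_dvd_of m hm
  by_cases hq : (q : ℕ) ∣ m
  · have h1 : q ∈ S := hS q hq
    have h2 := hk q h1
    have h3 := (Nat.modEq_iff_dvd.mp h2)
    have h4 := PadicInt.appr_spec (p := (q : ℕ)) (m.factorization (q : ℕ)) (c q)
    rw [Ideal.mem_span_singleton] at h4
    have h5 : ((q : ℕ) : ℤ_[(q : ℕ)]) ^ (m.factorization (q : ℕ)) ∣
        (((c q).appr (m.factorization (q : ℕ)) : ℕ) : ℤ_[(q : ℕ)]) - (k : ℤ_[(q : ℕ)]) := by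
      have h6 := Int.cast_dvd_cast (α := ℤ_[(q : ℕ)]) _ _ h3
      simpa using h6
    have h7 : (((k : ℕ) : ℤ) : ℤ_[(q : ℕ)]) - c q =
        -((((c q).appr (m.factorization (q : ℕ)) : ℕ) : ℤ_[(q : ℕ)]) - (k : ℤ_[(q : ℕ)])) -
        (c q - ((c q).appr (m.factorization (q : ℕ)) : ℕ)) := by
      push_cast
      ring
    rw [h7]
    exact dvd_sub (dvd_neg.mpr h5) h4
  · rw [Nat.factorization_eq_zero_of_not_dvd hq, pow_zero]
    exact one_dvd _

/-- congruence is equality modulo the ideal -/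
theorem LKEY_mc {n : ℕ} {R : Type} [CommRing R] (m : ℕ) (A B : Matrix (Fin n) (Fin n) R) :
    MC m A B ↔ (Ideal.Quotient.mk (Ideal.span {(m : R)})).mapMatrix A =
      (Ideal.Quotient.mk (Ideal.span {(m : R)})).mapMatrix B := by
  unfold MC
  rw [← Matrix.ext_iff]
  simp only [RingHom.mapMatrix_apply, Matrix.map_apply, Ideal.Quotient.eq,
    Ideal.mem_span_singleton]

theorem LKEY_cast {n : ℕ} (F : Type) [CommRing F] (m : ℕ) (A B : Matrix (Fin n) (Fin n) ℤ)
    (h : MC m A B) : MC m (A.map (Int.castRingHom F)) (B.map (Int.castRingHom F)) := by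
  intro i j
  have h1 := (Int.castRingHom F).map_dvd (h i j)
  simpa using h1

theorem LKEY_adj {n : ℕ} {R : Type} [CommRing R] (m : ℕ) (A B : Matrix (Fin n) (Fin n) R)
    (h : MC m A B) : MC m (adjugate A)ᵀ (adjugate B)ᵀ := by
  have h1 : MC m (adjugate A) (adjugate B) := by
    rw [LKEY_mc, RingHom.map_adjugate, RingHom.map_adjugate, (LKEY_mc m _ _).mp h]
  exact fun i j => h1 j i

theorem LKEY_mul {n : ℕ} {R : Type} [CommRing R] (m : ℕ) (A B C D : Matrix (Fin n) (Fin n) R)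
    (h : MC m A B) (h' : MC m C D) : MC m (A * C) (B * D) := by
  rw [LKEY_mc, map_mul, map_mul, (LKEY_mc m _ _).mp h, (LKEY_mc m _ _).mp h']

theorem LKEY_refl {n : ℕ} {R : Type} [CommRing R] (m : ℕ) (A : Matrix (Fin n) (Fin n) R) :
    MC m A A := by
  intro i j
  rw [sub_self]
  exact dvd_zero _

theorem LKEY_det {n : ℕ} {R : Type} [CommRing R] (m : ℕ) (A B : Matrix (Fin n) (Fin n) R)
    (h : MC m A B) : (m : R) ∣ A.det - B.det := by
  have h1 := congrArg Matrix.det ((LKEY_mc m _ _).mp h)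
  rw [← RingHom.map_det, ← RingHom.map_det, Ideal.Quotient.eq, Ideal.mem_span_singleton] at h1
  exact h1

theorem LKEY_sdM {n : ℕ} (s : Bool) (F : Type) [CommRing F] (γ : SLZ n) :
    sdM s F γ = if s then stdM F γ else (adjugate (stdM F γ))ᵀ := by
  unfold sdM
  cases s
  · simp only [Bool.false_eq_true, if_false]
    unfold duM
    congr 1
    unfold stdM
    rw [Matrix.SpecialLinearGroup.coe_inv, ← RingHom.mapMatrix_apply, ← RingHom.mapMatrix_apply,
      RingHom.map_adjugate]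
  · rfl

theorem LKEY (hLGG : LGG_stmt) (hLSA : LSA_stmt) : LKEY_stmt := by
  intro n hn Λ _ hQ f hf A hA m hm
  obtain ⟨π', X, Y, s, hXY, h1, h2⟩ := hLGG n hn Λ hQ PUnit (1 : Λ →* PUnit) f hf
  have hcard : Fintype.card (Fin n) ≠ 1 := by
    rw [Fintype.card_fin]; omega
  -- the matrices `D q`
  have hD : ∀ q : Nat.Primes, ∃ D : Matrix (Fin n) (Fin n) ℤ_[(q : ℕ)], D.det = 1 ∧
      X q * (if s q then D else (adjugate D)ᵀ) * Y q = A q := by
    intro q
    have hB : (Y q * A q * X q).det = 1 := by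
      have h3 : (X q).det * (Y q).det = 1 := by
        rw [← Matrix.det_mul, (hXY q).1, Matrix.det_one]
      rw [Matrix.det_mul, Matrix.det_mul, hA q, mul_one, mul_comm, h3]
    have hcancel : X q * (Y q * A q * X q) * Y q = A q := by
      calc X q * (Y q * A q * X q) * Y q = (X q * Y q) * A q * (X q * Y q) := by
            simp only [Matrix.mul_assoc]
        _ = A q := by rw [(hXY q).1, Matrix.one_mul, Matrix.mul_one]
    by_cases hs : s q = true
    · refine ⟨Y q * A q * X q, hB, ?_⟩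
      rw [if_pos hs]
      exact hcancel
    · refine ⟨(adjugate (Y q * A q * X q))ᵀ, ?_, ?_⟩
      · rw [Matrix.det_transpose, Matrix.det_adjugate, hB, one_pow]
      · rw [if_neg hs, ← Matrix.adjugate_transpose, Matrix.transpose_transpose,
          Matrix.adjugate_adjugate _ hcard, hB, one_pow, one_smul]
        exact hcancel
  choose D hD1 hD2 using hD
  -- the integer matrix
  have hC : ∀ i j : Fin n, ∃ z : ℤ, ∀ q : Nat.Primes,
      ((m : ℕ) : ℤ_[(q : ℕ)]) ∣ ((z : ℤ) : ℤ_[(q : ℕ)]) - D q i j := fun i j =>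
    LKEY_approx m hm (fun q => D q i j)
  choose C hC using hC
  have hCD : ∀ q : Nat.Primes,
      MC m ((Matrix.of C).map (Int.castRingHom ℤ_[(q : ℕ)])) (D q) := by
    intro q i j
    have := hC i j q
    simpa using this
  have hdet : (m : ℤ) ∣ (Matrix.of C).det - 1 := by
    apply LKEY_dvd
    intro q
    have h4 := LKEY_det m _ _ (hCD q)
    rw [hD1 q, ← RingHom.mapMatrix_apply, ← RingHom.map_det] at h4
    simpa using h4
  obtain ⟨γ, hγ⟩ := hLSA n m hm (Matrix.of C) hdet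
  obtain ⟨l, _, hl⟩ := h2 m hm γ
  refine ⟨l, fun q => ?_⟩
  have h5 : MC m (stdM ℤ_[(q : ℕ)] γ) (D q) := by
    rw [LKEY_mc]
    have h6 := (LKEY_mc m _ _).mp (LKEY_cast ℤ_[(q : ℕ)] m _ _ hγ)
    have h7 := (LKEY_mc m _ _).mp (hCD q)
    exact h6.trans h7
  have h8 : MC m (X q * sdM (s q) _ γ * Y q) (A q) := by
    rw [← hD2 q, LKEY_sdM]
    apply LKEY_mul m _ _ _ _ _ (LKEY_refl m _)
    apply LKEY_mul m _ _ _ _ (LKEY_refl m _)
    cases s q
    · exact LKEY_adj m _ _ h5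
    · exact h5
  rw [LKEY_mc]
  have h10 := (LKEY_mc m _ _).mp (hl q)
  have h11 := (LKEY_mc m _ _).mp h8
  exact h10.symm.trans h11

end Pool.Agent.PR
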