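import Pool.Agent.helper48.PR.SpecT

/-!
# Module pr:TV (MP_a2a22c_al), project of helper48
-/

set_option autoImplicit false

namespace Pool.Agent.PR

open Matrix Polynomial NumberField

theorem TV_core (hTA : TA_stmt) (hTU : TU_stmt) (K : Type) [Field K] [NumberField K]
    (h3 : Module.finrank ℚ K = 3) (F : Type) [Field F] [CharZero F] (Λ : Type) [Group Λ]
    (ρ : Λ →* Matrix (Fin 3) (Fin 3) F) (hinj : Function.Injective ρ)
    (hdet : ∀ l, (ρ l).det = 1) (htr : ∀ l, ∃ t : ℤ, (ρ l).trace = (t : F))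
    (E : K →+* Matrix (Fin 3) (Fin 3) F) (C : Subgroup Λ) (hC : ∀ c ∈ C, ∃ k : K, E k = ρ c)
    (a b : Λ) (ha : a ∈ C) (hb : b ∈ C)
    (hind : ∀ i j : ℤ, a ^ i * b ^ j = 1 → i = 0 ∧ j = 0) :
    Nonempty (C ≃* Multiplicative (Fin 2 → ℤ)) := by
  have hE : Function.Injective E := RingHom.injective E
  choose κ hκ using fun c : C => hC c c.2
  have hmul : ∀ c d : C, κ (c * d) = κ c * κ d := by
    intro c d
    apply hE
    rw [map_mul, hκ, hκ, hκ, Subgroup.coe_mul, map_mul]
  have hone : κ 1 = 1 := by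
    apply hE
    rw [hκ, map_one, Subgroup.coe_one, map_one]
  have hint : ∀ c : C, IsIntegral ℤ (κ c) := by
    intro c
    obtain ⟨t, ht⟩ := htr (c : Λ)
    obtain ⟨t', ht'⟩ := htr (c : Λ)⁻¹
    have h1 := hTA F (ρ c) (ρ (c : Λ)⁻¹) t t'
      (by rw [← map_mul, mul_inv_cancel, map_one]) (hdet c) ht ht'
    have h2 : IsIntegral ℤ (ρ c) := by
      refine ⟨cub t t', ?_, ?_⟩
      · unfold cub
        monicity!
      · have h4 := Matrix.aeval_self_charpoly (ρ c)
        rw [h1, Polynomial.aeval_def, Polynomial.eval₂_map] at h4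
        rw [RingHom.ext_int (algebraMap ℤ (Matrix (Fin 3) (Fin 3) F))
          ((algebraMap F (Matrix (Fin 3) (Fin 3) F)).comp (Int.castRingHom F))]
        exact h4
    rw [← hκ c] at h2
    exact (isIntegral_algHom_iff E.toIntAlgHom hE).mp h2
  let κ' : C →* 𝓞 K :=
    { toFun := fun c => ⟨κ c, hint c⟩
      map_one' := Subtype.ext hone
      map_mul' := fun c d => Subtype.ext (hmul c d) }
  have hκ' : ∀ c, ((κ' c : 𝓞 K) : K) = κ c := fun c => rfl
  have hθ : ∀ c, κ'.toHomUnits c ∈ NumberField.Units.torsion K → c = 1 := by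
    intro c hc
    have hodd : Odd (Module.finrank ℚ K) := by
      rw [h3]
      exact ⟨1, rfl⟩
    have h5 := NumberField.Units.torsion_eq_one_or_neg_one_of_odd_finrank hodd
      ⟨κ'.toHomUnits c, hc⟩
    have h6 : ρ c = 1 := by
      rcases h5 with h | h
      · have h7 : κ c = 1 := by
          have h8 := congrArg (fun u : (𝓞 K)ˣ => ((u : 𝓞 K) : K)) h
          rw [← hκ' c]
          simpa using h8
        rw [← hκ c, h7, map_one]
      · exfalso
        have h7 : κ c = -1 := by
          have h8 := congrArg (fun u : (𝓞 K)ˣ => ((u : 𝓞 K) : K)) h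
          rw [← hκ' c]
          simpa using h8
        have h9 : ρ c = -1 := by
          rw [← hκ c, h7, map_neg, map_one]
        have h10 := hdet c
        rw [h9, Matrix.det_neg, Matrix.det_one, Fintype.card_fin] at h10
        norm_num at h10
    apply Subtype.ext
    apply hinj
    rw [h6, Subgroup.coe_one, map_one]
  letI : CommGroup C :=
    { (inferInstance : Group C) with
      mul_comm := by
        intro c d
        apply Subtype.ext
        apply hinj
        rw [Subgroup.coe_mul, Subgroup.coe_mul, map_mul, map_mul, ← hκ c, ← hκ d, ← map_mul,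
          ← map_mul, mul_comm] }
  refine hTU K h3 C κ'.toHomUnits hθ ⟨a, ha⟩ ⟨b, hb⟩ ?_
  intro i j hij
  apply hind
  have h11 := congrArg (Subtype.val : C → Λ) hij
  exact h11

theorem TV (hTA : TA_stmt) (hTD : TD_stmt) (hTU : TU_stmt) : TV_stmt := by
  intro F _ _ Λ _ ρ hinj hdet htr a g hg hchar b hab hind
  haveI : Fact (Irreducible g) := ⟨hg⟩
  -- the embedding of the field
  let Φ : ℚ[X] →+* Matrix (Fin 3) (Fin 3) F :=
    ((Polynomial.aeval (R := F) (ρ a) : F[X] →ₐ[F] Matrix (Fin 3) (Fin 3) F) :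
      F[X] →+* Matrix (Fin 3) (Fin 3) F).comp (Polynomial.mapRingHom (algebraMap ℚ F))
  have hΦ : ∀ q : ℚ[X], Φ q = aeval (ρ a) (q.map (algebraMap ℚ F)) := fun q => rfl
  have hΦg : ∀ q ∈ Ideal.span {g}, Φ q = 0 := by
    intro q hq
    rw [Ideal.mem_span_singleton] at hq
    obtain ⟨r, rfl⟩ := hq
    rw [map_mul, hΦ g, ← hchar, Matrix.aeval_self_charpoly, zero_mul]
  let E : AdjoinRoot g →+* Matrix (Fin 3) (Fin 3) F := Ideal.Quotient.lift _ Φ hΦg
  have hE : ∀ q : ℚ[X], E (AdjoinRoot.mk g q) = aeval (ρ a) (q.map (algebraMap ℚ F)) :=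
    fun q => rfl
  have h3 : Module.finrank ℚ (AdjoinRoot g) = 3 := by
    have h4 : g.natDegree = 3 := by
      have h5 := Matrix.charpoly_natDegree_eq_dim (ρ a)
      rw [hchar, Polynomial.natDegree_map, Fintype.card_fin] at h5
      exact h5
    have h6 := (AdjoinRoot.powerBasis hg.ne_zero).finrank
    rw [AdjoinRoot.powerBasis_dim, h4] at h6
    convert h6
  refine TV_core hTA hTU (AdjoinRoot g) h3 F Λ ρ hinj hdet htr E _ ?_ a b ?_ ?_ hind
  · intro c hc
    rw [Subgroup.mem_centralizer_singleton_iff] at hc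
    obtain ⟨q, hq⟩ := hTD 3 F (ρ a) (ρ c) g hg hchar
      (by rw [← map_mul, ← map_mul, hc]) (by
        intro j
        obtain ⟨t, ht⟩ := htr (c * a ^ j)
        refine ⟨t, ?_⟩
        rw [← map_pow, ← map_mul, ht]
        push_cast
        rfl)
    exact ⟨AdjoinRoot.mk g q, by rw [hE, ← hq]⟩
  · rw [Subgroup.mem_centralizer_singleton_iff]
  · rw [Subgroup.mem_centralizer_singleton_iff]
    exact hab.symm

end Pool.Agent.PR
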