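import Pool.Agent.helper48.PR.SpecH

/-!
# Module pr:HB (MP_a2a22c_al), project of helper48
-/

set_option autoImplicit false

namespace Pool.Agent.PR

open Matrix

theorem HB (hHA : HA_stmt) (hC2 : C2_stmt) (hC3 : C3_stmt) : HB_stmt := by
  intro n m F _ _ x y x' y' z hH hx hy hz
  -- the inverse of `z`
  obtain ⟨u, hu⟩ : IsUnit z := by
    have h := hz.isUnit_add_one
    rwa [sub_add_cancel] at h
  have hzu : z * (↑u⁻¹ : Matrix (Fin n) (Fin n) F) = 1 := by
    rw [← hu]; exact Units.mul_inv u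
  have huz : (↑u⁻¹ : Matrix (Fin n) (Fin n) F) * z = 1 := by
    rw [← hu]; exact Units.inv_mul u
  set w : Matrix (Fin n) (Fin n) F := (↑u⁻¹ : Matrix (Fin n) (Fin n) F) with hw
  have hwn : IsNilpotent (w - 1) := by
    have h1 : w - 1 = -(w * (z - 1)) := by
      rw [mul_sub, huz, mul_one]
      abel
    rw [h1]
    apply IsNilpotent.neg
    apply Commute.isNilpotent_mul_left _ hz
    show w * (z - 1) = (z - 1) * w
    rw [mul_sub, sub_mul, huz, hzu, mul_one, one_mul]
  have hwc : ∀ A : Matrix (Fin n) (Fin n) F, z * A = A * z → w * A = A * w := by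
    intro A hA
    calc w * A = w * A * (z * w) := by rw [hzu, mul_one]
      _ = w * (A * z) * w := by simp only [mul_assoc]
      _ = w * (z * A) * w := by rw [hA]
      _ = (w * z) * A * w := by simp only [mul_assoc]
      _ = A * w := by rw [huz, one_mul]
  have h10 : IsNilpotent ((1 : Matrix (Fin n) (Fin n) F) - 1) := by
    rw [sub_self]; exact IsNilpotent.zero
  choose Uy Uy' hUyn hUyU hUy using fun i => hHA n F (y i) (y' i) (hy i)
  choose Ux Ux' hUxn hUxU hUx using fun i => hHA n F (x i) (x' i) (hx i)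
  -- with `ζ = 1`
  have hUy1 : ∀ i (g g' : Matrix (Fin n) (Fin n) F), g * g' = 1 → g * y i = y i * g →
      g * Uy i = Uy i * g := by
    intro i g g' hg hc
    have := hUy i g g' 1 hg h10 (by rw [one_mul, mul_one]) (by rw [one_mul, mul_one])
      (by rw [one_mul]; exact hc)
    rwa [one_mul] at this
  have hUx1 : ∀ i (g g' : Matrix (Fin n) (Fin n) F), g * g' = 1 → g * x i = x i * g →
      g * Ux i = Ux i * g := by
    intro i g g' hg hc
    have := hUx i g g' 1 hg h10 (by rw [one_mul, mul_one]) (by rw [one_mul, mul_one])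
      (by rw [one_mul]; exact hc)
    rwa [one_mul] at this
  -- the relations
  have A : ∀ i, x i * Uy i = z * Uy i * x i := fun i =>
    hUy i (x i) (x' i) z (hx i) hz (hH.yz i).symm (hH.xz i).symm
      (by rw [hH.xyz i, mul_assoc])
  have B : ∀ i j, i ≠ j → x i * Uy j = Uy j * x i := fun i j hij =>
    hUy1 j (x i) (x' i) (hx i) (hH.xy i j hij)
  have C : ∀ i, z * Uy i = Uy i * z := fun i => hUy1 i z w hzu (hH.yz i).symm
  have D : ∀ i j, y j * Uy i = Uy i * y j := fun i j =>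
    hUy1 i (y j) (y' j) (hy j) (hH.yy j i)
  have E : ∀ i j, Uy j * Uy i = Uy i * Uy j := fun i j =>
    hUy1 i (Uy j) (Uy' j) (hUyU j) (D j i).symm
  have Hz : ∀ i, z * Ux i = Ux i * z := fun i => hUx1 i z w hzu (hH.xz i).symm
  have I : ∀ i j, x j * Ux i = Ux i * x j := fun i j =>
    hUx1 i (x j) (x' j) (hx j) (hH.xx j i)
  have J : ∀ i j, Ux j * Ux i = Ux i * Ux j := fun i j =>
    hUx1 i (Ux j) (Ux' j) (hUxU j) (I j i).symm
  have G : ∀ i j, i ≠ j → Uy j * Ux i = Ux i * Uy j := fun i j hij =>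
    hUx1 i (Uy j) (Uy' j) (hUyU j) (B i j hij).symm
  have Fr : ∀ i, Ux i * Uy i = z * Uy i * Ux i := by
    intro i
    have h1 : Uy i * x i = w * x i * Uy i := by
      calc Uy i * x i = w * z * (Uy i * x i) := by rw [huz, one_mul]
        _ = w * (z * Uy i * x i) := by simp only [mul_assoc]
        _ = w * (x i * Uy i) := by rw [A i]
        _ = w * x i * Uy i := by simp only [mul_assoc]
    have h2 := hUx i (Uy i) (Uy' i) w (hUyU i) hwn (hwc _ (hH.xz i).symm) (hwc _ (C i)) h1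
    calc Ux i * Uy i = z * w * (Ux i * Uy i) := by rw [hzu, one_mul]
      _ = z * (w * Ux i * Uy i) := by simp only [mul_assoc]
      _ = z * (Uy i * Ux i) := by rw [h2]
      _ = z * Uy i * Ux i := by simp only [mul_assoc]
  -- logarithms
  obtain ⟨lg, hlg, _⟩ := hC2 n F
  have hcc : ∀ U U' : Matrix (Fin n) (Fin n) F, IsNilpotent (U - 1) → IsNilpotent (U' - 1) →
      U * U' = U' * U → lg U * lg U' = lg U' * lg U := by
    intro U U' hU hU' hc
    have h1 : U * lg U' = lg U' * U := (hlg U' hU').2.2 U hc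
    exact ((hlg U hU).2.2 (lg U') h1.symm).symm
  have hxy : ∀ i, lg (Ux i) * lg (Uy i) - lg (Uy i) * lg (Ux i) = lg z := by
    intro i
    apply hC3 n F (lg (Ux i)) (lg (Uy i)) (lg z) (hlg _ (hUxn i)).1 (hlg _ (hUyn i)).1
      (hlg _ hz).1 (hcc _ _ hz (hUxn i) (Hz i)) (hcc _ _ hz (hUyn i) (C i))
    rw [(hlg _ (hUxn i)).2.1, (hlg _ (hUyn i)).2.1, (hlg _ hz).2.1]
    exact Fr i
  refine ⟨fun i => lg (Ux i), fun i => lg (Uy i), lg z, (hlg _ hz).2.1, ?_⟩
  have hT : ∀ A : Matrix (Fin n) (Fin n) F, Matrix.toLin' A =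
      (Matrix.toLinAlgEquiv' : Matrix (Fin n) (Fin n) F ≃ₐ[F] _) A := fun _ => rfl
  have hmul : ∀ A B : Matrix (Fin n) (Fin n) F, A * B = B * A →
      Matrix.toLin' A * Matrix.toLin' B = Matrix.toLin' B * Matrix.toLin' A := by
    intro A B h
    rw [hT, hT, ← map_mul, ← map_mul, h]
  refine ⟨fun i => ?_, fun i => ?_, fun i j => ?_, fun i j => ?_, fun i j => ?_, fun i => ?_,
    fun i => ?_, ?_⟩
  · exact hmul _ _ (hcc _ _ (hUxn i) hz (Hz i).symm)
  · exact hmul _ _ (hcc _ _ (hUyn i) hz (C i).symm)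
  · exact hmul _ _ (hcc _ _ (hUxn i) (hUxn j) (J j i))
  · exact hmul _ _ (hcc _ _ (hUyn i) (hUyn j) (E j i))
  · by_cases hij : i = j
    · subst hij
      rw [if_pos rfl, ← hxy i]
      show Matrix.toLin' (lg (Ux i)) * Matrix.toLin' (lg (Uy i)) -
        Matrix.toLin' (lg (Uy i)) * Matrix.toLin' (lg (Ux i)) =
        Matrix.toLin' (lg (Ux i) * lg (Uy i) - lg (Uy i) * lg (Ux i))
      rw [hT, hT, hT, ← map_mul, ← map_mul, ← map_sub]
    · rw [if_neg hij, sub_eq_zero]
      exact hmul _ _ (hcc _ _ (hUxn i) (hUyn j) (G i j hij).symm)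
  · exact IsNilpotent.map (hlg _ (hUxn i)).1
      (Matrix.toLinAlgEquiv' : Matrix (Fin n) (Fin n) F ≃ₐ[F] _)
  · exact IsNilpotent.map (hlg _ (hUyn i)).1
      (Matrix.toLinAlgEquiv' : Matrix (Fin n) (Fin n) F ≃ₐ[F] _)
  · exact IsNilpotent.map (hlg _ hz).1
      (Matrix.toLinAlgEquiv' : Matrix (Fin n) (Fin n) F ≃ₐ[F] _)

end Pool.Agent.PR
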