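import Pool.Agent.helper48.PR.SpecH

/-!
# Module pr:HJ (MP_a2a22c_al), project of helper48
-/

set_option autoImplicit false

namespace Pool.Agent.PR

open Matrix

/-- powers of the `x i` -/
theorem HJ_heis {G : Type} [Group G] {m : ℕ} {x y : Fin m → G} {z : G} (h : Heis x y z) (k : ℕ) :
    Heis (fun i => x i ^ k) y (z ^ k) := by
  have hc : ∀ i, Commute (x i) z := fun i => h.xz i
  have hc' : ∀ i, Commute (y i) z := fun i => h.yz i
  refine ⟨fun i => ?_, fun i => ?_, fun i j => ?_, h.yy, fun i j hij => ?_, fun i => ?_⟩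
  · exact (hc i).pow_pow k k
  · exact (hc' i).pow_right k
  · exact Commute.pow_pow (show Commute (x i) (x j) from h.xx i j) k k
  · exact Commute.pow_left (show Commute (x i) (y j) from h.xy i j hij) k
  · show x i ^ k * y i = z ^ k * (y i * x i ^ k)
    induction k with
    | zero => simp
    | succ k ih =>
      calc x i ^ (k + 1) * y i = x i * (x i ^ k * y i) := by rw [pow_succ', mul_assoc]
        _ = x i * (z ^ k * (y i * x i ^ k)) := by rw [ih]
        _ = (x i * z ^ k) * (y i * x i ^ k) := by rw [mul_assoc]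
        _ = (z ^ k * x i) * (y i * x i ^ k) := by rw [((hc i).pow_right k).eq]
        _ = z ^ k * (x i * y i) * x i ^ k := by simp only [mul_assoc]
        _ = z ^ k * (z * (y i * x i)) * x i ^ k := by rw [h.xyz i]
        _ = z ^ (k + 1) * (y i * x i ^ (k + 1)) := by
            rw [pow_succ z, pow_succ' (x i)]
            simp only [mul_assoc]

theorem HJ_map {G M : Type} [Group G] [Monoid M] {m : ℕ} {x y : Fin m → G} {z : G}
    (h : Heis x y z) (ρ : G →* M) : Heis (fun i => ρ (x i)) (fun i => ρ (y i)) (ρ z) := by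
  refine ⟨fun i => ?_, fun i => ?_, fun i j => ?_, fun i j => ?_, fun i j hij => ?_, fun i => ?_⟩
  · rw [← map_mul, ← map_mul, h.xz]
  · rw [← map_mul, ← map_mul, h.yz]
  · rw [← map_mul, ← map_mul, h.xx]
  · rw [← map_mul, ← map_mul, h.yy]
  · rw [← map_mul, ← map_mul, h.xy i j hij]
  · rw [← map_mul, ← map_mul, ← map_mul, h.xyz]

theorem HJ (hC1 : C1_stmt) (hHB : HB_stmt) (hHI : HI_stmt) : HJ_stmt := by
  intro n m hm hn F _ _ G _ ρ x y z hH hz
  have hkpos : 0 < n.factorial := Nat.factorial_pos n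
  refine ⟨n.factorial, hkpos, ?_⟩
  set k := n.factorial with hk
  -- `ρ (z ^ k) - 1` is nilpotent
  have hnil : IsNilpotent (ρ (z ^ k) - 1) := by
    have i0 : Fin m := ⟨0, hm⟩
    rw [map_pow]
    apply hC1 n F (ρ (x i0)) (ρ (y i0)) (ρ z) (ρ (x i0)⁻¹) (ρ (y i0)⁻¹)
    · rw [← map_mul, mul_inv_cancel, map_one]
    · rw [← map_mul, mul_inv_cancel, map_one]
    · rw [← map_mul, ← map_mul, ← map_mul]
      congr 1
      rw [hH.xyz i0]
      group
    · rw [← map_mul, ← map_mul, hH.xz i0]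
    · rw [← map_mul, ← map_mul, hH.yz i0]
  have hH2 := HJ_map (HJ_heis hH k) ρ
  obtain ⟨X, Y, Z, hexp, hLH⟩ := hHB n m F (fun i => ρ (x i ^ k)) (fun i => ρ (y i))
    (fun i => ρ (x i ^ k)⁻¹) (fun i => ρ (y i)⁻¹) (ρ (z ^ k)) hH2
    (fun i => by rw [← map_mul, mul_inv_cancel, map_one])
    (fun i => by rw [← map_mul, mul_inv_cancel, map_one]) hnil
  have hZ0 : Matrix.toLin' Z ≠ 0 := by
    intro h0
    have h1 : Z = 0 := by
      apply Matrix.toLin'.injective
      rw [h0, map_zero]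
    rw [h1, IsNilpotent.exp_zero] at hexp
    exact hz k hkpos hexp.symm
  obtain ⟨hZZ, hrk⟩ := hHI F (Fin n → F) m hm _ _ _ hLH hZ0 (by
    rw [Module.finrank_fin_fun]; exact hn)
  have hZ2 : Z * Z = 0 := by
    apply Matrix.toLin'.injective
    rw [Matrix.toLin'_mul, map_zero]
    exact hZZ
  have hexp2 : IsNilpotent.exp Z = 1 + Z := by
    rw [IsNilpotent.exp_eq_sum (k := 2) (by rw [pow_two, hZ2])]
    simp [Finset.sum_range_succ]
  rw [← hexp, hexp2, add_sub_cancel_left]
  rw [← hrk]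
  rfl

end Pool.Agent.PR
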