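import Pool.Agent.helper48.PR.SpecH

/-!
# Module pr:HL (MP_a2a22c_al), project of helper48
-/

set_option autoImplicit false

namespace Pool.Agent.PR

open Matrix

section
variable {F V : Type} [Field F] [AddCommGroup V] [Module F V] {m : ℕ}

theorem HL_Mop_add (X Y : Fin m → Module.End F V) (e e' : (Fin m → F) × (Fin m → F)) :
    Mop X Y (e + e') = Mop X Y e + Mop X Y e' := by
  unfold Mop
  rw [← Finset.sum_add_distrib]
  refine Finset.sum_congr rfl fun i _ => ?_
  simp only [Prod.fst_add, Prod.snd_add, Pi.add_apply, add_smul]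
  abel

theorem HL_Mop_smul (X Y : Fin m → Module.End F V) (c : F) (e : (Fin m → F) × (Fin m → F)) :
    Mop X Y (c • e) = c • Mop X Y e := by
  unfold Mop
  rw [Finset.smul_sum]
  refine Finset.sum_congr rfl fun i _ => ?_
  simp only [Prod.smul_fst, Prod.smul_snd, Pi.smul_apply, smul_eq_mul, mul_smul, smul_add]

theorem HL_Mop_comm (X Y : Fin m → Module.End F V) (Z : Module.End F V) (h : LH X Y Z)
    (e : (Fin m → F) × (Fin m → F)) : Mop X Y e * Z = Z * Mop X Y e := by
  unfold Mop
  rw [Finset.sum_mul, Finset.mul_sum]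
  refine Finset.sum_congr rfl fun i _ => ?_
  rw [add_mul, mul_add, smul_mul_assoc, smul_mul_assoc, mul_smul_comm, mul_smul_comm, h.xz, h.yz]

/-- `e ↦ ψ ∘ Mop e ∘ Z` -/
def HL_A (X Y : Fin m → Module.End F V) (Z : Module.End F V) (ψ : Module.Dual F V) :
    ((Fin m → F) × (Fin m → F)) →ₗ[F] Module.Dual F V where
  toFun e := ψ ∘ₗ (Mop X Y e) ∘ₗ Z
  map_add' e e' := by
    rw [HL_Mop_add]
    ext u
    simp
  map_smul' c e := by
    rw [HL_Mop_smul]
    ext u
    simp

/-- `e ↦ [Mop e v]` -/
def HL_B (X Y : Fin m → Module.End F V) (Z : Module.End F V) (v : V) :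
    ((Fin m → F) × (Fin m → F)) →ₗ[F] V ⧸ LinearMap.range Z where
  toFun e := (LinearMap.range Z).mkQ (Mop X Y e v)
  map_add' e e' := by
    rw [HL_Mop_add, LinearMap.add_apply, map_add]
  map_smul' c e := by
    rw [HL_Mop_smul, LinearMap.smul_apply, map_smul, RingHom.id_apply]

/-- two maps have a common kernel of large dimension -/
theorem HL_inf {E X Y : Type} [AddCommGroup E] [Module F E] [FiniteDimensional F E]
    [AddCommGroup X] [Module F X] [AddCommGroup Y] [Module F Y] (A : E →ₗ[F] X) (B : E →ₗ[F] Y) :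
    Module.finrank F E ≤ Module.finrank F (LinearMap.ker A ⊓ LinearMap.ker B : Submodule F E) +
      Module.finrank F (LinearMap.range A) + Module.finrank F (LinearMap.range B) := by
  have h1 := LinearMap.finrank_range_add_finrank_ker A
  have h2 := LinearMap.finrank_range_add_finrank_ker B
  have h3 := Submodule.finrank_sup_add_finrank_inf_eq (LinearMap.ker A) (LinearMap.ker B)
  have h4 := Submodule.finrank_le (LinearMap.ker A ⊔ LinearMap.ker B)
  omega

end

theorem HL (hHK : HK_stmt) (hHD : HD_stmt) (hHE : HE_stmt) : HL_stmt := by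
  intro F V _ _ _ _ m X Y Z hL hZ2 hZ
  obtain ⟨v, hv, hvk⟩ := hHK F V m X Y Z hL hZ2 hZ
  obtain ⟨ψ, hψ⟩ : ∃ ψ : Module.Dual F V, ψ (Z v) = 1 := by
    obtain ⟨φ, hφ⟩ := Module.Projective.exists_dual_ne_zero F hv
    exact ⟨(φ (Z v))⁻¹ • φ, by
      rw [LinearMap.smul_apply, smul_eq_mul, inv_mul_cancel₀ hφ]⟩
  have hbr := (hHD F V m X Y Z hL).1
  obtain ⟨hE1, hE2, hE3⟩ := hHE F m
  -- the common kernel is isotropic
  set K : Submodule F ((Fin m → F) × (Fin m → F)) :=
    LinearMap.ker (HL_A X Y Z ψ) ⊓ LinearMap.ker (HL_B X Y Z v) with hK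
  have hKA : ∀ e ∈ K, ∀ u, ψ (Mop X Y e (Z u)) = 0 := by
    intro e he u
    have h1 : HL_A X Y Z ψ e = 0 := he.1
    exact LinearMap.congr_fun h1 u
  have hKB : ∀ e ∈ K, ∃ u, Z u = Mop X Y e v := by
    intro e he
    have h1 : (LinearMap.range Z).mkQ (Mop X Y e v) = 0 := he.2
    rw [Submodule.mkQ_apply, Submodule.Quotient.mk_eq_zero] at h1
    exact h1
  have hiso : Module.finrank F K ≤ m := by
    apply hE1
    intro e he e' he'
    have h1 := LinearMap.congr_fun (hbr e e') v
    obtain ⟨u, hu⟩ := hKB e he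
    obtain ⟨u', hu'⟩ := hKB e' he'
    rw [LinearMap.sub_apply, Module.End.mul_apply, Module.End.mul_apply, LinearMap.smul_apply,
      ← hu, ← hu'] at h1
    have h2 := congrArg ψ h1
    rw [map_sub, hKA e he, hKA e' he', map_smul, hψ, sub_zero, smul_eq_mul, mul_one] at h2
    exact h2.symm
  -- dimensions
  have hrk := LinearMap.finrank_range_add_finrank_ker Z
  have hrA : Module.finrank F (LinearMap.range (HL_A X Y Z ψ)) +
      Module.finrank F (LinearMap.ker Z) + 1 ≤ Module.finrank F V := by
    have h1 : LinearMap.range (HL_A X Y Z ψ) ≤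
        (LinearMap.ker Z ⊔ Submodule.span F {v}).dualAnnihilator := by
      rintro _ ⟨e, rfl⟩
      rw [Submodule.mem_dualAnnihilator]
      intro w hw
      rw [Submodule.mem_sup] at hw
      obtain ⟨a, ha, b, hb, rfl⟩ := hw
      rw [Submodule.mem_span_singleton] at hb
      obtain ⟨c, rfl⟩ := hb
      show ψ (Mop X Y e (Z (a + c • v))) = 0
      have h2 : Z a = 0 := ha
      rw [map_add, h2, zero_add, map_smul, map_smul, hvk e, smul_zero, map_zero]
    have h3 := Submodule.finrank_mono h1
    have h4 := Subspace.finrank_add_finrank_dualAnnihilator_eq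
      (LinearMap.ker Z ⊔ Submodule.span F {v})
    have h5 : LinearMap.ker Z < LinearMap.ker Z ⊔ Submodule.span F {v} := by
      refine lt_of_le_of_ne le_sup_left fun h => hv ?_
      have h6 : v ∈ LinearMap.ker Z ⊔ Submodule.span F {v} :=
        Submodule.mem_sup_right (Submodule.mem_span_singleton_self v)
      rw [← h] at h6
      exact h6
    have h6 := Submodule.finrank_lt_finrank_of_lt h5
    omega
  have hrZ : LinearMap.range Z ≤ LinearMap.ker Z := by
    rintro _ ⟨u, rfl⟩
    exact LinearMap.congr_fun hZ2 u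
  have hrB : Module.finrank F (LinearMap.range (HL_B X Y Z v)) +
      Module.finrank F (LinearMap.range Z) ≤ Module.finrank F (LinearMap.ker Z) := by
    set f := (LinearMap.range Z).mkQ.domRestrict (LinearMap.ker Z) with hf
    have h1 := LinearMap.finrank_range_add_finrank_ker f
    have h2 : LinearMap.range (HL_B X Y Z v) ≤ LinearMap.range f := by
      rintro _ ⟨e, rfl⟩
      refine ⟨⟨Mop X Y e v, ?_⟩, rfl⟩
      have h3 := LinearMap.congr_fun (HL_Mop_comm X Y Z hL e) v
      rw [Module.End.mul_apply, Module.End.mul_apply, hvk e] at h3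
      exact h3.symm
    have h3 := Submodule.finrank_mono h2
    have h4 : LinearMap.ker f = (LinearMap.range Z).comap (LinearMap.ker Z).subtype := by
      ext x
      rw [LinearMap.mem_ker, Submodule.mem_comap, hf, LinearMap.domRestrict_apply,
        Submodule.mkQ_apply, Submodule.Quotient.mk_eq_zero, Submodule.subtype_apply]
    have h5 := LinearEquiv.finrank_eq (Submodule.comapSubtypeEquivOfLe hrZ)
    rw [h4] at h1
    omega
  have hdim : Module.finrank F ((Fin m → F) × (Fin m → F)) = 2 * m := by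
    rw [Module.finrank_prod, Module.finrank_fin_fun]
    ring
  have hmain := HL_inf (HL_A X Y Z ψ) (HL_B X Y Z v)
  rw [hdim] at hmain
  rw [← hK] at hmain
  omega

end Pool.Agent.PR
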