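import Pool.Agent.helper17.PR.SpecNU

/-!
# Module pr:N_BGU (MP_a2a22c_al): class `≥ n - 1`, determinant one, unipotent partner
(adapted from helper50's `N_BIG`)
-/

set_option autoImplicit false

namespace Pool.Agent.PR

open Module
open scoped commutatorElement

theorem N_BGU_sub {G : Type} [Group G] (H : Subgroup G) (c : ℕ)
    (h : (⊤ : Subgroup G).lowerCentralSeries c = ⊥) :
    (⊤ : Subgroup H).lowerCentralSeries c = ⊥ := by
  have h1 : ((⊤ : Subgroup H).lowerCentralSeries c).map H.subtype ≤ ⊥ := by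
    rw [← h, Subgroup.top_subtype_lowerCentralSeries]
    exact Subgroup.lowerCentralSeries_mono c le_top
  rw [le_bot_iff, Subgroup.map_eq_bot_iff_of_injective _ H.subtype_injective] at h1
  exact h1

/-- if `[p, q] = t` commutes with `p` and `q` then `[p ^ k, q] = t ^ k` -/
theorem N_BGU_pow {G : Type} [Group G] (p q t : G) (ht : t = p * q * p⁻¹ * q⁻¹)
    (h1 : t * p = p * t) (k : ℕ) : t ^ k = p ^ k * q * (p ^ k)⁻¹ * q⁻¹ := by
  have h2 : p * q = t * q * p := by
    rw [ht]; group
  have h3 : ∀ k : ℕ, p ^ k * q = t ^ k * q * p ^ k := by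
    intro k
    induction k with
    | zero => simp
    | succ k ih =>
      have h4 : Commute p (t ^ k) := (show Commute p t from h1.symm).pow_right k
      calc p ^ (k + 1) * q = p * (p ^ k * q) := by rw [pow_succ', mul_assoc]
        _ = p * t ^ k * q * p ^ k := by rw [ih]; simp only [mul_assoc]
        _ = t ^ k * (p * q) * p ^ k := by rw [h4.eq]; simp only [mul_assoc]
        _ = t ^ (k + 1) * q * p ^ (k + 1) := by
          rw [h2, pow_succ t, pow_succ' p]; simp only [mul_assoc]
  rw [h3 k]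
  group

/-- a nilpotent endomorphism plus a scalar: the determinant -/
theorem N_BGU_det {K V : Type} [Field K] [AddCommGroup V] [Module K V] [FiniteDimensional K V]
    (f : Module.End K V) (a : K) (h : IsNilpotent (f - a • (1 : Module.End K V))) :
    LinearMap.det f = a ^ finrank K V := by
  have h1 : IsNilpotent (-(f - a • (1 : Module.End K V))) := h.neg
  have h2 := (LinearMap.isNilpotent_iff_charpoly (-(f - a • (1 : Module.End K V)))).mp h1
  have h3 := LinearMap.eval_charpoly (-(f - a • (1 : Module.End K V))) a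
  rw [h2, Polynomial.eval_pow, Polynomial.eval_X] at h3
  rw [h3]
  congr 1
  rw [Algebra.algebraMap_eq_smul_one]
  abel

theorem N_BGU (hTRI : N_TRI_stmt) (hSPL : N_SPL_stmt) (hSNG : N_SNG_stmt) (hPOW : N_POW_stmt)
    (hCEN : N_CEN_stmt) : N_BGU_stmt := by
  intro n hn K V _ _ _ _ _ _ P _ hdim hP ρ hρ hdet
  obtain ⟨hnil, htf, hlcs⟩ := hP
  have := hnil
  -- the class
  have hm : n - 2 < Group.nilpotencyClass P := by
    by_contra hcon
    push Not at hcon
    exact hlcs (Subgroup.lowerCentralSeries_eq_bot_iff_nilpotencyClass_le.2 hcon)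
  obtain ⟨c, hc⟩ : ∃ c, Group.nilpotencyClass P = c + 1 := ⟨Group.nilpotencyClass P - 1, by omega⟩
  have hc1 : (⊤ : Subgroup P).lowerCentralSeries (c + 1) = ⊥ :=
    Subgroup.lowerCentralSeries_eq_bot_iff_nilpotencyClass_le.2 hc.le
  have hc0 : (⊤ : Subgroup P).lowerCentralSeries c ≠ ⊥ := by
    intro h
    have := Subgroup.lowerCentralSeries_eq_bot_iff_nilpotencyClass_le.1 h
    omega
  have hcu : Subgroup.upperCentralSeries P (c + 1) = ⊤ :=
    Subgroup.lowerCentralSeries_eq_bot_iff_upperCentralSeries_eq_top.1 hc1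
  set H : Subgroup P := Subgroup.closure
    (Set.range fun g : P => g ^ (finrank K V).factorial ^ (c + 1)) with hH
  have htri : TriS (ρ.comp H.subtype) := hTRI K V P (c + 1) hcu ρ H hH
  have hpw : ∀ g : P, ∃ k : ℕ, 0 < k ∧ g ^ k ∈ H := by
    intro g
    refine ⟨(finrank K V).factorial ^ (c + 1), pow_pos (Nat.factorial_pos _) _, ?_⟩
    exact Subgroup.subset_closure ⟨g, rfl⟩
  have hH0 := hPOW P H c htf hpw hc0 hc1
  have hH1 : (⊤ : Subgroup H).lowerCentralSeries (c + 1) = ⊥ := N_BGU_sub H _ hc1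
  have hHnil : Group.IsNilpotent H := inferInstance
  obtain ⟨hS1, hS2⟩ := hSPL K V H hHnil (ρ.comp H.subtype) htri
  have hinj : ∀ t : H, (ρ.comp H.subtype) t = 1 → t = 1 := by
    intro t ht
    have h1 : ρ (t : P) = ρ 1 := by
      rw [map_one]
      exact ht
    exact Subtype.ext (hρ h1)
  -- the class is `n - 1`
  have hcn : c = n - 2 := by
    by_contra hcon
    have h1 : n - 1 ≤ c := by omega
    apply hH0
    rw [eq_bot_iff]
    intro t ht
    rw [Subgroup.mem_bot]
    apply hinj
    apply hS1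
    have h2 : max (finrank K V) 2 - 1 ≤ c := by
      rw [hdim, max_eq_left (by omega)]
      exact h1
    exact Subgroup.lowerCentralSeries_antitone _ h2 ht
  obtain ⟨c', hc'⟩ : ∃ c', c = c' + 1 := ⟨c - 1, by omega⟩
  -- a nontrivial commutator
  obtain ⟨p, hp, q, hpq⟩ : ∃ p ∈ (⊤ : Subgroup H).lowerCentralSeries c', ∃ q : H, ⁅p, q⁆ ≠ 1 := by
    by_contra hcon
    push Not at hcon
    apply hH0
    rw [hc', Subgroup.lowerCentralSeries_succ, eq_bot_iff, Subgroup.commutator_le]
    intro p hp q _
    rw [Subgroup.mem_bot]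
    exact hcon p hp q
  have ht : ⁅p, q⁆ ∈ (⊤ : Subgroup H).lowerCentralSeries c := by
    rw [hc', Subgroup.lowerCentralSeries_succ]
    exact Subgroup.commutator_mem_commutator hp (Subgroup.mem_top _)
  set t : H := ⁅p, q⁆ with htdef
  have hcent : ∀ h : H, t * h = h * t := by
    intro h
    have h1 : ⁅t, h⁆ ∈ (⊤ : Subgroup H).lowerCentralSeries (c + 1) := by
      rw [Subgroup.lowerCentralSeries_succ]
      exact Subgroup.commutator_mem_commutator ht (Subgroup.mem_top _)
    rw [hH1, Subgroup.mem_bot] at h1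
    exact commutatorElement_eq_one_iff_mul_comm.1 h1
  have hPc : ∀ h : H, (t : P) * (h : P) = (h : P) * (t : P) := by
    intro h
    exact congrArg (fun z : H => (z : P)) (hcent h)
  have htP : (t : P) ≠ 1 := fun h => hpq (Subtype.ext h)
  have htn : (t : P) ^ n ≠ 1 := htf (t : P) htP n (by omega)
  -- the power
  have hrank := hS2 (by omega) (t ^ n) (by
    rw [hdim, ← hcn]; exact Subgroup.pow_mem _ ht n)
  have hne : (ρ.comp H.subtype) (t ^ n) - 1 ≠ 0 := by
    intro h
    have h1 := hinj (t ^ n) (sub_eq_zero.1 h)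
    exact htn (congrArg (fun z : H => (z : P)) h1)
  have hrank1 : finrank K (LinearMap.range ((ρ.comp H.subtype) (t ^ n) - 1)) ≠ 0 := by
    intro h
    rw [Submodule.finrank_eq_zero, LinearMap.range_eq_bot] at h
    exact hne h
  have htpq : (t : P) = (p : P) * (q : P) * (p : P)⁻¹ * (q : P)⁻¹ := rfl
  have htpow := N_BGU_pow (p : P) (q : P) (t : P) htpq (hPc p) n
  have hcomm1 : (t : P) ^ n * (p : P) ^ n = (p : P) ^ n * (t : P) ^ n :=
    (Commute.pow_pow (show Commute (t : P) (p : P) from hPc p) n n).eq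
  have hcomm2 : (t : P) ^ n * (q : P) = (q : P) * (t : P) ^ n :=
    (Commute.pow_left (show Commute (t : P) (q : P) from hPc q) n).eq
  have hcen := hCEN P htf ((p : P) ^ n) (q : P) ((t : P) ^ n) htpow htn hcomm1 hcomm2
  refine ⟨(t : P) ^ n, (p : P) ^ n, hcomm1, ?_, hcen, ?_⟩
  · have h1 : (ρ.comp H.subtype) (t ^ n) = ρ ((t : P) ^ n) := rfl
    rw [h1] at hrank hrank1
    omega
  · -- the partner is unipotent
    have ht1 : (ρ.comp H.subtype) t ≠ 1 := fun h => hpq (hinj t h)
    obtain ⟨a, ha⟩ := hSNG K V H hHnil (ρ.comp H.subtype) htri (by omega) t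
      (by rw [hdim, ← hcn]; exact ht) ht1 p
    have h2 : (ρ.comp H.subtype) p = ρ (p : P) := rfl
    rw [h2] at ha
    have h3 := N_BGU_det (ρ (p : P)) a ha
    rw [hdet, hdim] at h3
    have h4 : IsNilpotent (ρ ((p : P) ^ n) - 1) := by
      have h5 : ρ ((p : P) ^ n) - 1 = (ρ (p : P)) ^ n - (a • (1 : Module.End K V)) ^ n := by
        rw [map_pow, smul_pow, one_pow, ← h3, one_smul]
      have hcm : Commute (ρ (p : P)) (a • (1 : Module.End K V)) :=
        (Commute.one_right _).smul_right a
      obtain ⟨r, hr1, hr2⟩ : ∃ r, (ρ (p : P)) ^ n - (a • (1 : Module.End K V)) ^ n =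
          (ρ (p : P) - a • (1 : Module.End K V)) * r ∧
          Commute (ρ (p : P) - a • (1 : Module.End K V)) r := by
        refine ⟨∑ i ∈ Finset.range n, (ρ (p : P)) ^ i * (a • (1 : Module.End K V)) ^ (n - 1 - i),
          (hcm.mul_geom_sum₂ n).symm, ?_⟩
        apply Commute.sum_right
        intro i _
        apply Commute.mul_right
        · apply Commute.pow_right
          exact (Commute.refl _).sub_left hcm.symm
        · apply Commute.pow_right
          exact hcm.sub_left (Commute.refl _)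
      rw [h5, hr1]
      exact hr2.isNilpotent_mul_right ha
    have h6 := (LinearMap.isNilpotent_iff_charpoly _).mp h4
    have h7 := LinearMap.aeval_self_charpoly (ρ ((p : P) ^ n) - 1)
    rw [h6, hdim, map_pow, Polynomial.aeval_X] at h7
    exact h7

end Pool.Agent.PR
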