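import Pool.Agent.helper17.PR.SpecNU
import Pool.Agent.helper45.PR.N_FIN

/-!
# Module pr:N_NILU (MP_a2a22c_al): `S_NILU_stmt` by extension of scalars
-/

set_option autoImplicit false

namespace Pool.Agent.PR

open Module Matrix

theorem N_NILU (hBGU : N_BGU_stmt) : N_NILU_stmt := by
  intro n hn F _ _ P _ hP ρ hρ hdet
  let K := AlgebraicClosure F
  haveI : CharZero K := charZero_of_injective_algebraMap (algebraMap F K).injective
  have hdim : finrank K (Fin n → K) = n := Module.finrank_fin_fun K
  have hinj := N_FIN_inj (K := K) ρ hρ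
  obtain ⟨t, u, h4, h5, h6, h7⟩ := hBGU n hn K (Fin n → K) P hdim hP (N_FIN_ext K ρ) hinj (by
    intro g
    show LinearMap.det (Matrix.toLin' ((ρ g).map (algebraMap F K))) = 1
    rw [LinearMap.det_toLin', ← RingHom.mapMatrix_apply, ← RingHom.map_det, hdet, map_one])
  refine ⟨t, u, h4, ?_, h6, ?_⟩
  · rw [← N_FIN_rank (K := K), h5]
  · rw [N_FIN_sub] at h7
    have h8 : Matrix.toLin' (((ρ u - 1) ^ n).map (algebraMap F K)) = 0 := by
      have h9 : ((ρ u - 1) ^ n).map (algebraMap F K) = ((ρ u - 1).map (algebraMap F K)) ^ n := by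
        rw [← RingHom.mapMatrix_apply, ← RingHom.mapMatrix_apply, map_pow]
      rw [h9]
      have h10 : ∀ A : Matrix (Fin n) (Fin n) K, Matrix.toLin' A =
        (Matrix.toLinAlgEquiv' : Matrix (Fin n) (Fin n) K ≃ₐ[K] _) A := fun _ => rfl
      rw [h10, map_pow]
      rw [h10] at h7
      exact h7
    have h11 : ((ρ u - 1) ^ n).map (algebraMap F K) = 0 := by
      apply Matrix.toLin'.injective
      rw [h8, map_zero]
    ext i j
    have h12 := congrFun (congrFun h11 i) j
    rw [Matrix.map_apply, Matrix.zero_apply] at h12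
    rw [Matrix.zero_apply]
    exact (map_eq_zero (algebraMap F K)).mp h12

end Pool.Agent.PR
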