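import Pool.Agent.helper45.PR.X_RSJ

/-!
# Project pr (MP_a2a22c_al), module X-CRT: strong approximation with the Chinese remainder theorem
-/

set_option autoImplicit false

namespace Pool.Agent.PR

open Matrix

theorem X_CRT (hLSA : LSA_stmt) : X_CRT_stmt := by
  intro n j d hj hd hc γ₁ γ₂
  have hc' : IsCoprime (j : ℤ) (d : ℤ) := Nat.isCoprime_iff_coprime.2 hc
  obtain ⟨u, v, huv⟩ := hc'
  let A : Matrix (Fin n) (Fin n) ℤ := Matrix.of fun i k =>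
    v * d * (γ₁ : Matrix (Fin n) (Fin n) ℤ) i k + u * j * (γ₂ : Matrix (Fin n) (Fin n) ℤ) i k
  have hA1 : ∀ i k, ((A i k : ℤ) : ZMod j) = (redZ n j γ₁).1 i k := by
    intro i k
    have h1 : A i k = (γ₁ : Matrix (Fin n) (Fin n) ℤ) i k + (j : ℤ) *
        (u * (γ₂ : Matrix (Fin n) (Fin n) ℤ) i k - u * (γ₁ : Matrix (Fin n) (Fin n) ℤ) i k) := by
      show v * d * (γ₁ : Matrix (Fin n) (Fin n) ℤ) i k +
        u * j * (γ₂ : Matrix (Fin n) (Fin n) ℤ) i k = _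
      linear_combination ((γ₁ : Matrix (Fin n) (Fin n) ℤ) i k) * huv
    rw [h1]
    push_cast
    rw [ZMod.natCast_self, zero_mul, add_zero]
    rfl
  have hA2 : ∀ i k, ((A i k : ℤ) : ZMod d) = (redZ n d γ₂).1 i k := by
    intro i k
    have h1 : A i k = (γ₂ : Matrix (Fin n) (Fin n) ℤ) i k + (d : ℤ) *
        (v * (γ₁ : Matrix (Fin n) (Fin n) ℤ) i k - v * (γ₂ : Matrix (Fin n) (Fin n) ℤ) i k) := by
      show v * d * (γ₁ : Matrix (Fin n) (Fin n) ℤ) i k +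
        u * j * (γ₂ : Matrix (Fin n) (Fin n) ℤ) i k = _
      linear_combination ((γ₂ : Matrix (Fin n) (Fin n) ℤ) i k) * huv
    rw [h1]
    push_cast
    rw [ZMod.natCast_self, zero_mul, add_zero]
    rfl
  have h1 := X_RSJ_det j A (redZ n j γ₁) hA1
  have h2 := X_RSJ_det d A (redZ n d γ₂) hA2
  have h3 : ((j * d : ℕ) : ℤ) ∣ A.det - 1 := by
    push_cast
    exact IsCoprime.mul_dvd ⟨u, v, huv⟩ h1 h2
  have hne : j * d ≠ 0 := Nat.mul_ne_zero (by omega) (by omega)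
  obtain ⟨γ, hγ⟩ := hLSA n (j * d) hne A h3
  have hγ' : ∀ i k, ((j * d : ℕ) : ℤ) ∣ (γ : Matrix (Fin n) (Fin n) ℤ) i k - A i k := hγ
  refine ⟨γ, X_RSJ_red j A γ (fun i k => ?_) _ hA1, X_RSJ_red d A γ (fun i k => ?_) _ hA2⟩
  · exact Dvd.dvd.trans ⟨(d : ℤ), by push_cast; rfl⟩ (hγ' i k)
  · exact Dvd.dvd.trans ⟨(j : ℤ), by push_cast; ring⟩ (hγ' i k)

end Pool.Agent.PR
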