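import Pool.Agent.helper5.PR.SpecX

/-!
# Project pr (MP_a2a22c_al), module X-DEN: traces with denominators
-/

set_option autoImplicit false

namespace Pool.Agent.PR

open Matrix

theorem X_DEN_den (n : ℕ) (q : ℕ) (hq : q.Prime) : q ∣ ((n : ℚ) + (q : ℚ)⁻¹).den := by
  have hq0 : (q : ℚ) ≠ 0 := by exact_mod_cast hq.ne_zero
  have h1 := Rat.den_mul_eq_num ((n : ℚ) + (q : ℚ)⁻¹)
  set t := ((n : ℚ) + (q : ℚ)⁻¹).den with ht
  set z := ((n : ℚ) + (q : ℚ)⁻¹).num with hz
  have h2 : ((t : ℤ) : ℚ) = ((q : ℤ) * (z - t * n : ℤ) : ℤ) := by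
    push_cast
    have h3 : (t : ℚ) * (n : ℚ) + (t : ℚ) * (q : ℚ)⁻¹ = z := by
      rw [← h1]; ring
    rw [← h3]
    field_simp
    ring
  have h4 : (t : ℤ) = (q : ℤ) * (z - t * n) := by exact_mod_cast h2
  have h5 : (q : ℤ) ∣ (t : ℤ) := ⟨_, h4⟩
  exact_mod_cast h5

theorem X_DEN (_hZI : S_ZI_stmt) : X_DEN_stmt := by
  intro n m hn hm q hq hqm
  obtain ⟨c, hc⟩ := hqm
  have hq0 : (q : ℚ) ≠ 0 := by exact_mod_cast hq.ne_zero
  have hc0 : (c : ℚ) ≠ 0 := by
    have : c ≠ 0 := by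
      rintro rfl
      omega
    exact_mod_cast this
  have hmem : ((q : ℚ))⁻¹ ∈ ZI m := by
    have h1 : ((m : ℚ)⁻¹) ∈ ZI m := Algebra.subset_adjoin rfl
    have h3 := (ZI m).smul_mem h1 (c : ℤ)
    rw [zsmul_eq_mul] at h3
    have h4 : ((c : ℤ) : ℚ) * (m : ℚ)⁻¹ = (q : ℚ)⁻¹ := by
      rw [hc]
      push_cast
      field_simp
    rwa [h4] at h3
  let a : ZI m := ⟨(q : ℚ)⁻¹, hmem⟩
  let i0 : Fin n := ⟨0, by omega⟩
  let i1 : Fin n := ⟨1, by omega⟩
  have h01 : i0 ≠ i1 := by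
    intro h
    have := congrArg Fin.val h
    simp [i0, i1] at this
  let x : SLI n m := ⟨Matrix.transvection i0 i1 a, Matrix.det_transvection_of_ne i0 i1 h01 a⟩ *
    ⟨Matrix.transvection i1 i0 1, Matrix.det_transvection_of_ne i1 i0 h01.symm 1⟩
  refine ⟨x, ?_⟩
  have hx : ratM x = 1 + Matrix.single i0 i1 ((q : ℚ)⁻¹) + Matrix.single i1 i0 1 +
      Matrix.single i0 i0 ((q : ℚ)⁻¹) := by
    have h1 : ratM x = (Matrix.transvection i0 i1 a * Matrix.transvection i1 i0 1).map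
        (algebraMap (ZI m) ℚ) := rfl
    rw [h1, Matrix.map_mul]
    have h2 : (Matrix.transvection i0 i1 a).map (algebraMap (ZI m) ℚ) =
        1 + Matrix.single i0 i1 ((q : ℚ)⁻¹) := by
      ext i j
      simp only [Matrix.transvection, Matrix.map_apply, Matrix.add_apply, map_add,
        Matrix.one_apply, Matrix.single_apply]
      split_ifs <;> simp [a] <;> rfl
    have h3 : (Matrix.transvection i1 i0 (1 : ZI m)).map (algebraMap (ZI m) ℚ) =
        1 + Matrix.single i1 i0 1 := by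
      ext i j
      simp only [Matrix.transvection, Matrix.map_apply, Matrix.add_apply, map_add,
        Matrix.one_apply, Matrix.single_apply]
      split_ifs <;> simp
    rw [h2, h3, add_mul, mul_add, mul_add, one_mul, one_mul, mul_one,
      Matrix.single_mul_single_same, mul_one]
    abel
  have htr : (ratM x).trace = (n : ℚ) + (q : ℚ)⁻¹ := by
    rw [hx, Matrix.trace_add, Matrix.trace_add, Matrix.trace_add, Matrix.trace_one,
      Fintype.card_fin, Matrix.trace_single_eq_of_ne _ _ _ h01,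
      Matrix.trace_single_eq_of_ne _ _ _ h01.symm, Matrix.trace_single_eq_same, add_zero, add_zero]
  rw [htr]
  exact X_DEN_den n q hq

end Pool.Agent.PR
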