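import Pool.Agent.helper5.PR.SpecX

/-!
# Project pr (MP_a2a22c_al), module X-FINAL: the exact classification
-/

set_option autoImplicit false

namespace Pool.Agent.PR

open Matrix

theorem X_FINAL (hL : X_L_stmt) (hCFG : X_CFG_stmt) (hCQL : X_CQL_stmt) (hCRF : X_CRF_stmt)
    (hCNL : X_CNL_stmt) (hLT1 : LT1_stmt) : X_FINAL_stmt := by
  intro n hn L _
  refine ⟨⟨?_, ?_⟩, ?_⟩
  · rintro ⟨hfg, hrf, hq, P, hP⟩
    exact hL n hn L hfg hrf hq P hP
  · rintro ⟨m, d, Φ, hm, hd, hdm, hsur, hker⟩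
    refine ⟨?_, hCRF n hn m d hm hd L Φ hsur hker, ?_, hCNL n hn m d hm hd L Φ hsur hker⟩
    · haveI h1 : Group.FG (SLI n m) := hCFG n hn m hm
      haveI : NeZero d := ⟨by omega⟩
      haveI h2 : Finite (SLd n d) := inferInstance
      haveI h3 : Group.FG (SLI n m × SLd n d) := inferInstance
      exact Group.fg_of_surjective hsur
    · intro Q _ _ hf
      obtain ⟨f, hf⟩ := hf
      exact hCQL n hn m d hm hd hdm Q ⟨f.comp Φ, hf.comp hsur⟩
  · rintro hfg hrf h1 h2 ⟨P, hP⟩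
    exact hLT1 n hn L hfg h1 h2 hrf P ⟨hP.1, hP.2.1, Or.inl hP.2.2⟩

end Pool.Agent.PR
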