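import Pool.Agent.helper5.PR.SpecX

/-!
# Project pr (MP_a2a22c_al), module X-RED: reduction of `SL(n, ℤ[1/m])` modulo `k`
-/

set_option autoImplicit false

namespace Pool.Agent.PR

open Matrix

theorem X_RED_rep (hZI : S_ZI_stmt) (m : ℕ) (hm : 1 ≤ m) (x : ZI m) :
    ∃ (s : ℕ) (z : ℤ), (m : ℚ) ^ s * (x : ℚ) = z := by
  obtain ⟨s, hs⟩ := (hZI m hm x).1 x.2
  obtain ⟨c, hc⟩ := hs
  refine ⟨s, c * (x : ℚ).num, ?_⟩
  have h1 : ((m : ℚ)) ^ s = ((x : ℚ).den : ℚ) * c := by exact_mod_cast hc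
  have h2 : ((x : ℚ).den : ℚ) * (x : ℚ) = (x : ℚ).num := Rat.den_mul_eq_num (x : ℚ)
  push_cast
  rw [h1, mul_right_comm, h2, mul_comm]

theorem X_RED_mem (m : ℕ) (s : ℕ) (z : ℤ) : (z : ℚ) * ((m : ℚ)⁻¹) ^ s ∈ ZI m := by
  have h1 : ((m : ℚ)⁻¹) ∈ ZI m := Algebra.subset_adjoin rfl
  have h2 := (ZI m).pow_mem h1 s
  have h3 := (ZI m).smul_mem h2 z
  rwa [zsmul_eq_mul] at h3

/-- the ring homomorphism `ℤ[1/m] → ℤ/k` -/
theorem X_RED_hom (hZI : S_ZI_stmt) (m k : ℕ) (hm : 1 ≤ m) (hk : 1 ≤ k) (hc : k.Coprime m) :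
    ∃ φ : ZI m →+* ZMod k, ∀ y : ZI m, φ y = 0 ↔ ∃ a : ZI m, (y : ℚ) = (k : ℚ) * (a : ℚ) := by
  classical
  have hm0 : (m : ℚ) ≠ 0 := by
    have : m ≠ 0 := by omega
    exact_mod_cast this
  choose s z hsz using X_RED_rep hZI m hm
  let u : (ZMod k)ˣ := ZMod.unitOfCoprime m hc.symm
  have hu : (u : ZMod k) = m := ZMod.coe_unitOfCoprime m hc.symm
  let φ : ZI m → ZMod k := fun x => (z x : ZMod k) * ((u ^ s x)⁻¹ : (ZMod k)ˣ)
  have hφ : ∀ (x : ZI m) (t : ℕ) (w : ℤ), (m : ℚ) ^ t * (x : ℚ) = w →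
      φ x * (u : ZMod k) ^ t = w := by
    intro x t w h
    have h1 : (m : ℤ) ^ t * z x = (m : ℤ) ^ (s x) * w := by
      have h2 : ((m : ℚ)) ^ t * (z x : ℚ) = (m : ℚ) ^ (s x) * (w : ℚ) := by
        rw [← hsz x, ← h]; ring
      exact_mod_cast h2
    have h3 : (u : ZMod k) ^ t * (z x : ZMod k) = (u : ZMod k) ^ (s x) * (w : ZMod k) := by
      rw [hu]
      have h4 := congrArg (fun a : ℤ => (a : ZMod k)) h1
      simpa using h4
    have h5 : (u : ZMod k) ^ (s x) * (((u ^ s x)⁻¹ : (ZMod k)ˣ) : ZMod k) = 1 := by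
      rw [← Units.val_pow_eq_pow_val, Units.mul_inv]
    calc φ x * (u : ZMod k) ^ t
        = ((u : ZMod k) ^ t * (z x : ZMod k)) * (((u ^ s x)⁻¹ : (ZMod k)ˣ) : ZMod k) := by
          show ((z x : ZMod k) * (((u ^ s x)⁻¹ : (ZMod k)ˣ) : ZMod k)) * (u : ZMod k) ^ t = _
          ring
      _ = (w : ZMod k) * ((u : ZMod k) ^ (s x) * (((u ^ s x)⁻¹ : (ZMod k)ˣ) : ZMod k)) := by
          rw [h3]; ring
      _ = w := by rw [h5, mul_one]
  have hcan : ∀ (t : ℕ) (a b : ZMod k), a * (u : ZMod k) ^ t = b * (u : ZMod k) ^ t → a = b := by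
    intro t a b h
    rw [← Units.val_pow_eq_pow_val] at h
    exact (Units.mul_left_inj _).1 h
  have h0 : ∀ x : ZI m, φ x * (u : ZMod k) ^ (s x) = z x := fun x => hφ x _ _ (hsz x)
  let Φ : ZI m →+* ZMod k :=
    { toFun := φ
      map_one' := by
        have h := hφ 1 0 1 (by simp)
        rw [pow_zero, mul_one] at h
        rw [h, Int.cast_one]
      map_zero' := by
        have h := hφ 0 0 0 (by simp)
        rw [pow_zero, mul_one] at h
        rw [h, Int.cast_zero]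
      map_mul' := by
        intro x y
        apply hcan (s x + s y)
        have h := hφ (x * y) (s x + s y) (z x * z y) (by
          push_cast
          rw [← hsz x, ← hsz y, pow_add]
          ring)
        rw [h]
        push_cast
        rw [← h0 x, ← h0 y, pow_add]
        ring
      map_add' := by
        intro x y
        apply hcan (s x + s y)
        have h := hφ (x + y) (s x + s y) ((m : ℤ) ^ s y * z x + (m : ℤ) ^ s x * z y) (by
          push_cast
          rw [← hsz x, ← hsz y, pow_add]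
          ring)
        rw [h]
        push_cast
        rw [← h0 x, ← h0 y, ← hu, pow_add]
        ring }
  have hΦ : ∀ x, Φ x = φ x := fun _ => rfl
  refine ⟨Φ, fun y => ⟨fun h => ?_, ?_⟩⟩
  · have h1 : (z y : ZMod k) = 0 := by
      rw [← h0 y, ← hΦ, h, zero_mul]
    rw [ZMod.intCast_zmod_eq_zero_iff_dvd] at h1
    obtain ⟨c, hc⟩ := h1
    refine ⟨⟨_, X_RED_mem m (s y) c⟩, ?_⟩
    have h2 := hsz y
    rw [hc] at h2
    push_cast at h2
    show (y : ℚ) = (k : ℚ) * ((c : ℚ) * ((m : ℚ)⁻¹) ^ s y)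
    rw [inv_pow]
    field_simp
    linarith
  · rintro ⟨a, ha⟩
    have h1 : y = (k : ZI m) * a := by
      apply Subtype.ext
      rw [ha]
      push_cast
      rfl
    rw [h1, map_mul, map_natCast, ZMod.natCast_self, zero_mul]

theorem X_RED (hZI : S_ZI_stmt) : X_RED_stmt := by
  intro n m k hm hk hc
  obtain ⟨φ, hφ⟩ := X_RED_hom hZI m k hm hk hc
  refine ⟨SpecialLinearGroup.map φ, ?_, ?_⟩
  · intro γ
    ext i j
    show φ (algebraMap ℤ (ZI m) (γ.1 i j)) = Int.castRingHom (ZMod k) (γ.1 i j)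
    rw [← RingHom.comp_apply]
    congr 1
    exact Subsingleton.elim _ _
  · intro x
    have h1 : ∀ i j, φ (x.1 i j - (1 : Matrix (Fin n) (Fin n) (ZI m)) i j) =
        φ (x.1 i j) - (1 : Matrix (Fin n) (Fin n) (ZMod k)) i j := by
      intro i j
      rw [map_sub]
      congr 1
      by_cases h : i = j
      · rw [h, Matrix.one_apply_eq, Matrix.one_apply_eq, map_one]
      · rw [Matrix.one_apply_ne h, Matrix.one_apply_ne h, map_zero]
    have h2 : ∀ i j, ((x.1 i j - (1 : Matrix (Fin n) (Fin n) (ZI m)) i j : ZI m) : ℚ) =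
        ratM x i j - (1 : Matrix (Fin n) (Fin n) ℚ) i j := by
      intro i j
      rw [Subalgebra.coe_sub]
      congr 1
      by_cases h : i = j
      · rw [h, Matrix.one_apply_eq, Matrix.one_apply_eq]; rfl
      · rw [Matrix.one_apply_ne h, Matrix.one_apply_ne h]; rfl
    constructor
    · intro h i j
      have h3 : φ (x.1 i j - (1 : Matrix (Fin n) (Fin n) (ZI m)) i j) = 0 := by
        rw [h1 i j, sub_eq_zero]
        have h4 := congrArg (fun y : SLd n k => y.1 i j) h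
        exact h4
      obtain ⟨a, ha⟩ := (hφ _).1 h3
      exact ⟨a, by rw [← h2 i j, ha]⟩
    · intro h
      ext i j
      obtain ⟨a, ha⟩ := h i j
      have h3 : φ (x.1 i j - (1 : Matrix (Fin n) (Fin n) (ZI m)) i j) = 0 :=
        (hφ _).2 ⟨a, by rw [h2 i j, ha]⟩
      rw [h1 i j, sub_eq_zero] at h3
      exact h3

end Pool.Agent.PR
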